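import Pool.Agent.LinU.Defs
import Pool.Agent.GAvg.DigDef
import Pool.Agent.GAvg.E2Tools

/-!
# The product of two linear forms: the easy direction
-/

set_option autoImplicit false

namespace Pool.Agent.H63PR

open Finset Pool.Agent.Grz Pool.Agent.GAvg Pool.Agent.PTr Pool.Agent.LinU

private theorem conv_dfun (H : ∀ (k : ℕ) (R : (Fin k → ℕ) → Prop), E2Star k R → Delta0 k R)
    {n : ℕ} {f : (Fin n → ℕ) → ℕ} (hf : E2 n f) : DFun n f :=
  ⟨H _ _ (E2Star.eqFun (E2.proj 0) hf.weak), hf.bounded⟩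

private theorem conv_dg {n : ℕ} (m : ℕ) {z i : (Fin n → ℕ) → ℕ} (hz : E2 n z) (hi : E2 n i) :
    E2 n (fun v => dg m (z v) (i v)) := E2.dig (E2.const m) hz hi

/-- the code of `N` successive terms -/
private theorem conv_step {m : ℕ} (hm : 2 ≤ m) {s : ℕ → ℕ} (hs : ∀ i, s i < m) (N i : ℕ) :
    (∑ l ∈ range N, s (i + l) * m ^ l) / m + s (i + N) * (m ^ N / m) =
      ∑ l ∈ range N, s (i + 1 + l) * m ^ l := by
  rcases N with _ | N
  · have : 1 / m = 0 := Nat.div_eq_of_lt (by omega)
    simp [this]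
  · rw [sum_range_succ']
    have h1 : ∑ l ∈ range N, s (i + (l + 1)) * m ^ (l + 1) =
        m * ∑ l ∈ range N, s (i + 1 + l) * m ^ l := by
      rw [mul_sum]
      refine sum_congr rfl fun l _ => ?_
      rw [show i + (l + 1) = i + 1 + l by omega, pow_succ]
      ring
    rw [h1, pow_zero, mul_one, Nat.add_zero i, Nat.mul_add_div (by omega),
      Nat.div_eq_of_lt (hs i), Nat.add_zero, sum_range_succ, pow_succ,
      Nat.mul_div_cancel _ (by omega), show i + (N + 1) = i + 1 + N by omega]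

/-- The terms of the recurrences `s (i + N) = (∑ u_j s (i + j)) (∑ w_j s (i + j))` modulo `m` are
in Grzegorczyk's class: the code `z = ∑ l < N, s (i + l) * m ^ l < m ^ N ≤ B` of `N` successive terms
is computed by limited recursion. -/
theorem prodRec_e2 {m : ℕ} (hm : 2 ≤ m) {n : ℕ} {N B u w x t : (Fin n → ℕ) → ℕ}
    (hN : E2 n N) (hB : E2 n B) (hu : E2 n u) (hw : E2 n w) (hx : E2 n x) (ht : E2 n t)
    (hNB : ∀ v, m ^ N v ≤ B v) {s : (Fin n → ℕ) → ℕ → ℕ}
    (hs0 : ∀ v i, i < N v → s v i = dg m (x v) i)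
    (hsr : ∀ v i, s v (i + N v) = ((∑ j ∈ range (N v), dg m (u v) j * s v (i + j)) *
      (∑ j ∈ range (N v), dg m (w v) j * s v (i + j))) % m) :
    E2 n (fun v => s v (t v)) := by
  have hm0 : 0 < m := by omega
  have hslt : ∀ v i, s v i < m := by
    intro v i
    rcases Nat.lt_or_ge i (N v) with h | h
    · rw [hs0 v i h]
      exact Nat.mod_lt _ hm0
    · obtain ⟨j, rfl⟩ := Nat.exists_eq_add_of_le' h
      rw [hsr]
      exact Nat.mod_lt _ hm0
  let P : ℕ → (Fin n → ℕ) → ℕ := fun z v =>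
    z / m + ((∑ j ∈ range (N v), dg m (u v) j * dg m z j) *
      (∑ j ∈ range (N v), dg m (w v) j * dg m z j)) % m * (m ^ N v / m)
  let S : (Fin n → ℕ) → ℕ := fun v => x v % m ^ N v
  have hpow : E2 n (fun v => m ^ N v) := E2.powBdd (E2.const m) hN hB hNB
  have hsum : ∀ {u : (Fin n → ℕ) → ℕ}, E2 n u →
      E2 (n + 1) (fun w => ∑ j ∈ range (N (fun i => w i.succ)),
        dg m (u (fun i => w i.succ)) j * dg m (w 0) j) := by
    intro u hu
    refine E2.sumRange (n := n + 1) (b := fun w => N (fun i => w i.succ))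
      (f := fun j w => dg m (u (fun i => w i.succ)) j * dg m (w 0) j) hN.weak ?_
    exact (conv_dg m hu.weak.weak (E2.proj 0)).mul (conv_dg m (E2.proj _) (E2.proj 0))
  have hP : E2 (n + 1) (fun w => P (w 0) (fun i => w i.succ)) :=
    ((E2.proj 0).div (E2.const m)).add ((((hsum hu).mul (hsum hw)).mod (E2.const m)).mul
      (hpow.weak.div (E2.const m)))
  have hS : E2 n S := hx.mod hpow
  have hcode : ∀ v t, (fun z => P z v)^[t] (S v) = ∑ l ∈ range (N v), s v (t + l) * m ^ l := by
    intro v t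
    induction t with
    | zero =>
      have hlt : x v % m ^ N v < m ^ N v := Nat.mod_lt _ (pow_pos hm0 _)
      show x v % m ^ N v = _
      rw [← Pool.Agent.GAvg.sum_dig hlt]
      refine sum_congr rfl fun l hl => ?_
      have hl' := mem_range.1 hl
      rw [Nat.zero_add, hs0 v l hl']
      unfold dg dig
      congr 1
      obtain ⟨d, hd⟩ := Nat.exists_eq_add_of_lt hl'
      rw [hd, show l + d + 1 = l + (d + 1) by omega, pow_add, Nat.mod_mul_right_div_self,
        pow_succ, mul_comm (m ^ d) m, Nat.mod_mul_right_mod]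
    | succ t ih =>
      rw [Function.iterate_succ_apply', ih]
      have hdg : ∀ i, i < N v → dg m (∑ l ∈ range (N v), s v (t + l) * m ^ l) i = s v (t + i) :=
        fun i hi => dig_sum hm0 (fun l => s v (t + l)) (fun l _ => hslt v _) hi
      show (∑ l ∈ range (N v), s v (t + l) * m ^ l) / m + _ = _
      rw [← conv_step hm (hslt v) (N v) t, hsr v t]
      congr 4
      · refine sum_congr rfl fun j hj => ?_
        rw [hdg _ (mem_range.1 hj)]
      · refine sum_congr rfl fun j hj => ?_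
        rw [hdg _ (mem_range.1 hj)]
  have hbd : ∀ t v, (fun z => P z v)^[t] (S v) ≤ B v := by
    intro t v
    rw [hcode]
    exact ((Pool.Agent.GAvg.sum_lt hm0 (fun l => s v (t + l)) fun l _ => hslt v _).le).trans (hNB v)
  have hit := E2.iterate hP hS hB hbd
  have hfin : E2 n (fun v => (fun z => P z v)^[t v] (S v) % m) :=
    (E2.substFirst (F := fun t v => (fun z => P z v)^[t] (S v)) hit ht).mod (E2.const m)
  have hres : (fun v => s v (t v)) = fun v => (fun z => P z v)^[t v] (S v) % m := by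
    funext v
    rw [hcode]
    rcases Nat.eq_zero_or_pos (N v) with h | h
    · have hz : s v (t v + N v) = 0 := by
        rw [hsr, h, range_zero, sum_empty, Nat.zero_mul, Nat.zero_mod]
      rw [h, Nat.add_zero] at hz
      rw [h, hz]
      simp
    · have := dig_sum hm0 (m := N v) (fun l => s v (t v + l)) (fun l _ => hslt v _) h
      simp only [dig, pow_zero, Nat.div_one, Nat.add_zero] at this
      exact this.symm
  rw [hres]
  exact hfin

/-- If `Delta0 = E2Star`, these terms are definable. -/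
theorem prodRec_of_eq {m : ℕ} (hm : 2 ≤ m)
    (H : ∀ (n : ℕ) (R : (Fin n → ℕ) → Prop), E2Star n R → Delta0 n R) {n : ℕ}
    {N B u w x t : (Fin n → ℕ) → ℕ} (hN : DFun n N) (hB : DFun n B) (hu : DFun n u)
    (hw : DFun n w) (hx : DFun n x) (ht : DFun n t) (hNB : ∀ v, m ^ N v ≤ B v)
    {s : (Fin n → ℕ) → ℕ → ℕ} (hs0 : ∀ v i, i < N v → s v i = dg m (x v) i)
    (hsr : ∀ v i, s v (i + N v) = ((∑ j ∈ range (N v), dg m (u v) j * s v (i + j)) *
      (∑ j ∈ range (N v), dg m (w v) j * s v (i + j))) % m) :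
    DFun n (fun v => s v (t v)) :=
  conv_dfun H (prodRec_e2 hm hN.e2 hB.e2 hu.e2 hw.e2 hx.e2 ht.e2 hNB hs0 hsr)

end Pool.Agent.H63PR
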