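import Pool.Agent.LinU.PD

/-!
# The logarithm to a fixed base is definable
-/

set_option autoImplicit false

namespace Pool.Agent.H63PR

open Finset Pool.Agent.Grz Pool.Agent.GAvg Pool.Agent.PTr Pool.Agent.LinU

theorem logm_def {m : ℕ} (hm : 2 ≤ m) {n : ℕ} {f : (Fin n → ℕ) → ℕ} (hf : DFun n f) :
    DFun n (fun v => Nat.log m (f v)) := by
  refine DFun.ofGraph (b := f) hf (fun v => Nat.log_le_self m (f v)) ?_
  have h0 : DFun (n + 1) (fun w => w 0) := DFun.proj 0
  have h1 : Delta0 (n + 1) (fun w => m ^ w 0 ≤ f (fun i => w i.succ)) :=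
    delta_powLe (DFun.const m) h0 hf.weak fun _ => hm
  have h2 : Delta0 (n + 1) (fun w => m ^ (w 0 + 1) ≤ f (fun i => w i.succ)) :=
    delta_powLe (DFun.const m) (h0.add (DFun.const 1)) hf.weak fun _ => hm
  refine (((Delta0.eqFun hf.weak (DFun.const 0)).and (Delta0.eqFun h0 (DFun.const 0))).or
    (h1.and h2.not)).of_iff fun w => ?_
  generalize f (fun i => w i.succ) = a
  generalize w 0 = y
  rcases Nat.eq_zero_or_pos a with rfl | ha
  · rw [Nat.log_zero_right]
    constructor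
    · exact fun h => Or.inl ⟨rfl, h⟩
    · rintro (⟨_, h⟩ | ⟨h, _⟩)
      · exact h
      · exact absurd h (not_le.2 (pow_pos (by omega) y))
  · constructor
    · rintro rfl
      exact Or.inr ⟨Nat.pow_log_le_self m ha.ne', not_le.2 (Nat.lt_pow_succ_log_self (by omega) a)⟩
    · rintro (⟨h, _⟩ | ⟨h, h'⟩)
      · omega
      · exact ((Nat.log_eq_iff (Or.inr ⟨by omega, ha.ne'⟩)).2 ⟨h, not_le.1 h'⟩).symm

end Pool.Agent.H63PR
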