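import Pool.Agent.H63PR.Hard
import Pool.Agent.H63PR.Conv
import Pool.Agent.H63PR.Log

/-!
# Products of two linear forms: one function decides `Delta0 = E2Star`
-/

set_option autoImplicit false

namespace Pool.Agent.H63PR

open Finset Pool.Agent.Grz Pool.Agent.GAvg Pool.Agent.PTr Pool.Agent.LinU

/-- **One function.** `Delta0` and `E2Star` are equal if and only if the function
`(u, w, x, p, t) ↦ s_t` is in `DFun`; here `s` is the sequence with `s_i = x_i` for `i < N`,
`N = ⌊log_m p⌋`, and `s_(i+N) = (∑ j < N, u_j s_(i+j)) (∑ j < N, w_j s_(i+j))` modulo `m`. -/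
theorem seq_iff {m : ℕ} (hm : 2 ≤ m) :
    (∀ (n : ℕ) (R : (Fin n → ℕ) → Prop), Delta0 n R ↔ E2Star n R) ↔
      DFun 5 (fun v => seq m (Nat.log m (v 3)) (v 0) (v 1) (v 2) (v 4)) := by
  constructor
  · intro H
    exact prodRec_of_eq hm (fun n R => (H n R).2) (N := fun v => Nat.log m (v 3))
      (B := fun v => v 3 + 1) (u := fun v => v 0) (w := fun v => v 1) (x := fun v => v 2)
      (t := fun v => v 4) (s := fun v => seq m (Nat.log m (v 3)) (v 0) (v 1) (v 2))
      (logm_def hm (DFun.proj 3)) ((DFun.proj 3).add (DFun.const 1)) (DFun.proj 0) (DFun.proj 1)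
      (DFun.proj 2) (DFun.proj 4) (fun v => Nat.pow_log_le_add_one m (v 3))
      (fun v i hi => seq_lt hi) (fun v i => seq_add _ _ _ _ _ i)
  · intro H
    obtain ⟨k₀, hk₀⟩ := H80Q.quad_contrast hm
    exact (hk₀ (k₀ + 1) (by omega)).1 (quadRec_of_seq hm H (by omega))

end Pool.Agent.H63PR
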