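import Pool.Agent.H63OA.Main1

/-!
# Products of two linear forms: definitions
-/

set_option autoImplicit false

namespace Pool.Agent.H63PR

open Finset Pool.Agent.Grz Pool.Agent.LinU Pool.Agent.H63OA

/-- The sequence `s` with `s_i = x_i` for `i < N` and
`s_(i+N) = (∑ j < N, u_j s_(i+j)) (∑ j < N, w_j s_(i+j))` modulo `m`; here `x_i`, `u_j`, `w_j` are
the digits of `x`, `u`, `w` to the base `m`. -/
def seq (m N u w x i : ℕ) : ℕ :=
  if h : i < N then dg m x i
  else (∑ j : Fin N, dg m u j * seq m N u w x (i - N + j)) *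
    (∑ j : Fin N, dg m w j * seq m N u w x (i - N + j)) % m
termination_by i
decreasing_by
  all_goals
    have := j.2
    omega

/-- the values of the gates -/
def cell (m k N : ℕ) (a b : ℕ → ℕ) (s : ℕ → ℕ) (g n : ℕ) : ℕ :=
  if g < 2 then s n else
    if g < k + 2 then
      (if N ≤ n + 1 then s (n + 1 - N + a (g - 2)) * s (n + 1 - N + b (g - 2)) % m else 0)
    else 1

/-- the first factor, for the sequence `p` -/
def sumA (k N : ℕ) (a c : ℕ → ℕ) (p : ℕ → ℕ) (τ : ℕ) : ℕ :=
  ∑ e ∈ range (3 * k + 4), wtA k c e * p (τ - del k (tgA k e) (srA k e) (shA k N a e))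

/-- the second factor -/
def sumB (k N : ℕ) (b : ℕ → ℕ) (p : ℕ → ℕ) (τ : ℕ) : ℕ :=
  ∑ e ∈ range (k + 6), p (τ - del k (tgB k e) (srB k e) (shB k N b e))

/-- the digits of the first coefficient number -/
def ud (m k N : ℕ) (a c : ℕ → ℕ) (j : ℕ) : ℕ :=
  (∑ e ∈ range (3 * k + 4),
    if del k (tgA k e) (srA k e) (shA k N a e) + j = N * bl k then wtA k c e else 0) % m

/-- the digits of the second coefficient number -/
def wd (m k N : ℕ) (b : ℕ → ℕ) (j : ℕ) : ℕ :=
  (∑ e ∈ range (k + 6),
    if del k (tgB k e) (srB k e) (shB k N b e) + j = N * bl k then 1 else 0) % m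

theorem seq_lt {m N u w x i : ℕ} (h : i < N) : seq m N u w x i = dg m x i := by
  rw [seq, dif_pos h]

theorem seq_add (m N u w x i : ℕ) : seq m N u w x (i + N) =
    (∑ j ∈ range N, dg m u j * seq m N u w x (i + j)) *
      (∑ j ∈ range N, dg m w j * seq m N u w x (i + j)) % m := by
  rw [seq, dif_neg (by omega), Nat.add_sub_cancel,
    Fin.sum_univ_eq_sum_range (fun j => dg m u j * seq m N u w x (i + j)),
    Fin.sum_univ_eq_sum_range (fun j => dg m w j * seq m N u w x (i + j))]

/-- uniqueness -/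
theorem seq_unique {m N u w x : ℕ} {s : ℕ → ℕ} (h0 : ∀ i < N, s i = dg m x i)
    (h1 : ∀ i, s (i + N) = (∑ j ∈ range N, dg m u j * s (i + j)) *
      (∑ j ∈ range N, dg m w j * s (i + j)) % m) (i : ℕ) : s i = seq m N u w x i := by
  induction i using Nat.strong_induction_on with
  | _ i ih =>
    rcases Nat.lt_or_ge i N with h | h
    · rw [h0 i h, seq_lt h]
    · obtain ⟨i', rfl⟩ := Nat.exists_eq_add_of_le' h
      rw [h1, seq_add]
      congr 2
      · refine sum_congr rfl fun j hj => ?_
        rw [ih _ (by have := mem_range.1 hj; omega)]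
      · refine sum_congr rfl fun j hj => ?_
        rw [ih _ (by have := mem_range.1 hj; omega)]

end Pool.Agent.H63PR
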