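import Pool.Agent.H63PR.Val
import Pool.Agent.H63OA.Main

/-!
# Products of two linear forms: hardness
-/

set_option autoImplicit false

namespace Pool.Agent.H63PR

open Finset Pool.Agent.Grz Pool.Agent.GAvg Pool.Agent.PTr Pool.Agent.LinU Pool.Agent.LinU46
open Pool.Agent.H63OA

section

variable {n k m : ℕ} {N x τ i j : (Fin n → ℕ) → ℕ} {a b c : ℕ → (Fin n → ℕ) → ℕ}

theorem cell_def (hm : 2 ≤ m) (hN : DFun n N) (hx : DFun n x) (ha : ∀ j, DFun n (a j))
    (hb : ∀ j, DFun n (b j)) (g : ℕ) (hi : DFun n i) :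
    DFun n (fun v => cell m k (N v) (fun j => a j v) (fun j => b j v) (dg m (x v)) g (i v)) := by
  have hd : ∀ {f : (Fin n → ℕ) → ℕ}, DFun n f → DFun n (fun v => dg m (x v) (f v)) := fun hf =>
    dfun_dg (DFun.const m) hx hf fun _ => hm
  unfold cell
  by_cases h1 : g < 2
  · simp only [if_pos h1]
    exact hd hi
  · by_cases h2 : g < k + 2
    · simp only [if_neg h1, if_pos h2]
      have hn : DFun n (fun v => i v + 1 - N v) := (hi.add (DFun.const 1)).sub hN
      exact DFun.ite (Delta0.leFun hN (hi.add (DFun.const 1)))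
        (DFun.modPos ((hd (hn.add (ha _))).mul (hd (hn.add (hb _)))) (DFun.const m)
          fun _ => by omega) (DFun.const 0)
    · simp only [if_neg h1, if_neg h2]
      exact DFun.const 1

theorem pseq_def (hm : 2 ≤ m) (hN : DFun n N) (hx : DFun n x) (ha : ∀ j, DFun n (a j))
    (hb : ∀ j, DFun n (b j)) (hτ : DFun n τ) :
    DFun n (fun v => pseq k (cell m k (N v) (fun j => a j v) (fun j => b j v) (dg m (x v)))
      (τ v)) := by
  unfold pseq
  have hM : ∀ _v : Fin n → ℕ, 0 < bl k := fun _ => bl_pos k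
  exact dfun_sum_range _ fun g => DFun.ite
    (Delta0.eqFun (DFun.modPos hτ (DFun.const _) hM) (DFun.const _))
    (cell_def hm hN hx ha hb g (DFun.divPos hτ (DFun.const _) hM)) (DFun.const 0)

theorem ud_def (hm : 2 ≤ m) (hN : DFun n N) (ha : ∀ j, DFun n (a j)) (hc : ∀ j, DFun n (c j))
    (hj : DFun n j) :
    DFun n (fun v => ud m k (N v) (fun j => a j v) (fun j => c j v) (j v)) := by
  unfold ud
  exact DFun.modPos (dfun_sum_range _ fun e => DFun.ite
    (Delta0.eqFun ((del_def (shA_def hN ha e) _ _).add hj) (hN.mul (DFun.const _)))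
    (wtA_def hc e) (DFun.const 0)) (DFun.const m) fun _ => by omega

theorem wd_def (hm : 2 ≤ m) (hN : DFun n N) (hb : ∀ j, DFun n (b j)) (hj : DFun n j) :
    DFun n (fun v => wd m k (N v) (fun j => b j v) (j v)) := by
  unfold wd
  exact DFun.modPos (dfun_sum_range _ fun e => DFun.ite
    (Delta0.eqFun ((del_def (shB_def hN hb e) _ _).add hj) (hN.mul (DFun.const _)))
    (DFun.const 1) (DFun.const 0)) (DFun.const m) fun _ => by omega

end

theorem lin_mod {L n m i : ℕ} (wt d p : ℕ → ℕ) (hd : ∀ e < n, 1 ≤ d e ∧ d e ≤ L) :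
    (∑ j ∈ range L, ((∑ e ∈ range n, if d e + j = L then wt e else 0) % m) * p (i + j)) % m =
      (∑ e ∈ range n, wt e * p (i + L - d e)) % m := by
  have h1 : ∀ f : ℕ → ℕ, (∑ j ∈ range L, (f j % m) * p (i + j)) % m =
      (∑ j ∈ range L, f j * p (i + j)) % m := by
    intro f
    rw [sum_nat_mod, sum_nat_mod (range L) m (fun j => f j * p (i + j))]
    congr 1
    exact sum_congr rfl fun j _ => Nat.mod_mul_mod _ _ _
  rw [h1]
  congr 1
  simp only [sum_mul]
  rw [sum_comm]
  refine sum_congr rfl fun e he => ?_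
  obtain ⟨h2, h3⟩ := hd e (mem_range.1 he)
  rw [sum_eq_single (L - d e)]
  · rw [if_pos (by omega)]
    congr 2
    omega
  · intro j _ hj
    rw [if_neg (by omega), zero_mul]
  · intro h
    exact absurd (mem_range.2 (by omega)) h

section

variable {m k N : ℕ} {a b c s : ℕ → ℕ}

theorem cell_lt (hm : 2 ≤ m) (hs2 : ∀ i, s i < m) (g n : ℕ) : cell m k N a b s g n < m := by
  unfold cell
  split_ifs
  · exact hs2 _
  · exact Nat.mod_lt _ (by omega)
  · omega
  · omega

theorem pseq_lt (hm : 2 ≤ m) (hs2 : ∀ i, s i < m) (τ : ℕ) :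
    pseq k (cell m k N a b s) τ < m := by
  by_cases h : ∃ x < gn k, τ % bl k = 4 ^ x
  · obtain ⟨x, hx, hx'⟩ := h
    rw [pseq_at hx hx']
    exact cell_lt hm hs2 _ _
  · by_contra h1
    obtain ⟨l, hl, h2⟩ := pseq_ne (k := k) (cl := cell m k N a b s) (τ := τ) (by omega)
    exact h ⟨l, hl, h2⟩

/-- the sequence `pseq` is a sequence `seq` -/
theorem pseq_eq_seq (hm : 2 ≤ m) (hN : 1 ≤ N) (ha : ∀ j < k, a j < N) (hb : ∀ j < k, b j < N)
    (hs2 : ∀ i, s i < m)
    (hs : ∀ i, s (i + N) = (∑ j ∈ range k, c j * s (i + a j) * s (i + b j)) % m) {x : ℕ}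
    (hx : ∀ i < N, dg m x i = s i) (τ : ℕ) :
    pseq k (cell m k N a b s) τ = seq m (N * bl k)
      (∑ j ∈ range (N * bl k), ud m k N a c j * m ^ j)
      (∑ j ∈ range (N * bl k), wd m k N b j * m ^ j)
      (∑ j ∈ range (N * bl k), pseq k (cell m k N a b (dg m x)) j * m ^ j) τ := by
  have hm0 : 0 < m := by omega
  have hx2 : ∀ i, dg m x i < m := fun i => Nat.mod_lt _ hm0
  have hps : ∀ τ < N * bl k, pseq k (cell m k N a b (dg m x)) τ = pseq k (cell m k N a b s) τ := by
    intro τ hτ
    have hn : τ / bl k < N := (Nat.div_lt_iff_lt_mul (bl_pos k)).2 hτ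
    unfold pseq
    refine sum_congr rfl fun g _ => ?_
    split_ifs
    · unfold cell
      split_ifs with h1 h2 h3
      · exact hx _ hn
      · rw [hx _ (by have := ha (g - 2) (by omega); omega),
          hx _ (by have := hb (g - 2) (by omega); omega)]
      · rfl
      · rfl
    · rfl
  refine seq_unique (fun i hi => ?_) (fun i => ?_) τ
  · rw [dg_code hm0 _ (fun i _ => pseq_lt hm hx2 i) hi, hps i hi]
  · have hA : (∑ j ∈ range (N * bl k), dg m (∑ j ∈ range (N * bl k), ud m k N a c j * m ^ j) j *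
        pseq k (cell m k N a b s) (i + j)) % m =
        sumA k N a c (pseq k (cell m k N a b s)) (i + N * bl k) % m := by
      rw [← show _ = sumA k N a c (pseq k (cell m k N a b s)) (i + N * bl k) % m from
        lin_mod (L := N * bl k) (n := 3 * k + 4) (m := m) (i := i) (wtA k c)
        (fun e => del k (tgA k e) (srA k e) (shA k N a e)) (pseq k (cell m k N a b s))
        fun e he => ⟨(by norm_num : 1 ≤ 2).trans (okA hN ha he).two_le, (okA hN ha he).del_le hN⟩]
      congr 1
      refine sum_congr rfl fun j hj => ?_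
      rw [dg_code hm0 (ud m k N a c) (fun i _ => Nat.mod_lt _ hm0) (mem_range.1 hj)]
      rfl
    have hB : (∑ j ∈ range (N * bl k), dg m (∑ j ∈ range (N * bl k), wd m k N b j * m ^ j) j *
        pseq k (cell m k N a b s) (i + j)) % m =
        sumB k N b (pseq k (cell m k N a b s)) (i + N * bl k) % m := by
      have h1 := lin_mod (L := N * bl k) (n := k + 6) (m := m) (i := i) (fun _ => 1)
        (fun e => del k (tgB k e) (srB k e) (shB k N b e)) (pseq k (cell m k N a b s))
        fun e he => ⟨(by norm_num : 1 ≤ 2).trans (okB hN hb he).two_le, (okB hN hb he).del_le hN⟩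
      simp only [one_mul] at h1
      rw [← show _ = sumB k N b (pseq k (cell m k N a b s)) (i + N * bl k) % m from h1]
      congr 1
      refine sum_congr rfl fun j hj => ?_
      rw [dg_code hm0 (wd m k N b) (fun i _ => Nat.mod_lt _ hm0) (mem_range.1 hj)]
      rfl
    rw [pseq_rec hm hN ha hb hs2 hs (Nat.le_add_left _ _), Nat.mul_mod, ← hA, ← hB, ← Nat.mul_mod]

theorem pseq_val (t : ℕ) : pseq k (cell m k N a b s) (t * bl k + 1) = s t := by
  have hlt : 1 < bl k := bl_two k
  rw [show t * bl k + 1 = 1 + bl k * t by ring, pseq_at (x := 0) (by unfold gn; omega)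
    (by rw [Nat.add_mul_mod_self_left, Nat.mod_eq_of_lt hlt, pow_zero]),
    Nat.add_mul_div_left _ _ (bl_pos k), Nat.div_eq_of_lt hlt, zero_add]
  unfold cell
  rw [if_pos (by norm_num)]

end

/-- **Hardness.** -/
theorem quadRec_of_seq {m : ℕ} (hm : 2 ≤ m)
    (H : DFun 5 (fun v => seq m (Nat.log m (v 3)) (v 0) (v 1) (v 2) (v 4))) {k : ℕ}
    (hk : 1 ≤ k) : H80Q.QuadRec m k := by
  intro n N B x t a b c s hN hB hx ht ha hb hc hNB hab hs0 hs1
  have hm0 : 0 < m := by omega
  have hN1 : ∀ v, 1 ≤ N v := fun v => by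
    have := (hab v ⟨0, hk⟩).1
    omega
  have hs2 : ∀ v i, s v i < m := by
    intro v i
    by_cases hi : i < N v
    · rw [hs0 v i hi]
      exact Nat.mod_lt _ hm0
    · have h1 := hs1 v (i - N v)
      rw [Nat.sub_add_cancel (by omega)] at h1
      rw [h1]
      exact Nat.mod_lt _ hm0
  have ha' : ∀ v, ∀ j < k, ext a j v < N v := by
    intro v j hj
    rw [show ext a j v = a ⟨j, hj⟩ v from ext_val a ⟨j, hj⟩ v]
    exact (hab v _).1
  have hb' : ∀ v, ∀ j < k, ext b j v < N v := by
    intro v j hj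
    rw [show ext b j v = b ⟨j, hj⟩ v from ext_val b ⟨j, hj⟩ v]
    exact (hab v _).2
  have hs' : ∀ v i, s v (i + N v) = (∑ j ∈ range k, ext c j v * s v (i + ext a j v) *
      s v (i + ext b j v)) % m := by
    intro v i
    rw [hs1 v i, ← Fin.sum_univ_eq_sum_range (fun j => ext c j v * s v (i + ext a j v) *
      s v (i + ext b j v))]
    congr 1
    refine sum_congr rfl fun j _ => ?_
    rw [ext_val, ext_val, ext_val]
  have hB' : DFun n (fun v => B v ^ bl k) := DFun.powConst hB _
  have hL : DFun n (fun v => N v * bl k) := hN.mul (DFun.const _)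
  have hbd : ∀ v, m ^ (N v * bl k) ≤ B v ^ bl k := by
    intro v
    rw [pow_mul]
    exact Nat.pow_le_pow_left (hNB v) _
  have hU : DFun n (fun v => ∑ j ∈ range (N v * bl k),
      ud m k (N v) (fun j => ext a j v) (fun j => ext c j v) j * m ^ j) := by
    refine dfun_code (m := fun _ => m) (d := fun v => N v * bl k) (B := fun v => B v ^ bl k)
      (g := fun j v => ud m k (N v) (fun j => ext a j v) (fun j => ext c j v) j)
      (DFun.const m) hL hB' ?_ (fun _ => hm) hbd
    exact ud_def hm hN.weak (a := fun j w => ext a j fun i => w i.succ)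
      (fun j => (ext_def ha j).weak) (c := fun j w => ext c j fun i => w i.succ)
      (fun j => (ext_def hc j).weak) (DFun.proj 0)
  have hW : DFun n (fun v => ∑ j ∈ range (N v * bl k),
      wd m k (N v) (fun j => ext b j v) j * m ^ j) := by
    refine dfun_code (m := fun _ => m) (d := fun v => N v * bl k) (B := fun v => B v ^ bl k)
      (g := fun j v => wd m k (N v) (fun j => ext b j v) j)
      (DFun.const m) hL hB' ?_ (fun _ => hm) hbd
    exact wd_def hm hN.weak (b := fun j w => ext b j fun i => w i.succ)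
      (fun j => (ext_def hb j).weak) (DFun.proj 0)
  have hX : DFun n (fun v => ∑ j ∈ range (N v * bl k),
      pseq k (cell m k (N v) (fun j => ext a j v) (fun j => ext b j v) (dg m (x v))) j *
        m ^ j) := by
    refine dfun_code (m := fun _ => m) (d := fun v => N v * bl k) (B := fun v => B v ^ bl k)
      (g := fun j v => pseq k (cell m k (N v) (fun j => ext a j v) (fun j => ext b j v)
        (dg m (x v))) j)
      (DFun.const m) hL hB' ?_ (fun _ => hm) hbd
    exact pseq_def hm hN.weak hx.weak (a := fun j w => ext a j fun i => w i.succ)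
      (fun j => (ext_def ha j).weak) (b := fun j w => ext b j fun i => w i.succ)
      (fun j => (ext_def hb j).weak) (DFun.proj 0)
  have hP : DFun n (fun v => m ^ (N v * bl k)) := dfun_powLe (DFun.const m) hL hB' hbd
  have hT : DFun n (fun v => t v * bl k + 1) := (ht.mul (DFun.const _)).add (DFun.const 1)
  have h1 := H.comp (n := n) (h := ![fun v => ∑ j ∈ range (N v * bl k),
      ud m k (N v) (fun j => ext a j v) (fun j => ext c j v) j * m ^ j,
    fun v => ∑ j ∈ range (N v * bl k), wd m k (N v) (fun j => ext b j v) j * m ^ j,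
    fun v => ∑ j ∈ range (N v * bl k),
      pseq k (cell m k (N v) (fun j => ext a j v) (fun j => ext b j v) (dg m (x v))) j * m ^ j,
    fun v => m ^ (N v * bl k), fun v => t v * bl k + 1]) (by
      intro i
      match i with
      | 0 => exact hU
      | 1 => exact hW
      | 2 => exact hX
      | 3 => exact hP
      | 4 => exact hT)
  refine (show (fun v => s v (t v)) = _ from ?_) ▸ h1
  funext v
  show s v (t v) = seq m (Nat.log m (m ^ (N v * bl k))) _ _ _ (t v * bl k + 1)
  rw [Nat.log_pow (by omega)]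
  exact (pseq_val (t v)).symm.trans (pseq_eq_seq hm (hN1 v) (ha' v) (hb' v) (hs2 v) (hs' v)
    (fun i hi => (hs0 v i hi).symm) (t v * bl k + 1))

end Pool.Agent.H63PR
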