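import Pool.Agent.H63PR.Def
import Pool.Agent.H63PR.Log
import Pool.Agent.H69Fu.All
import Pool.Agent.LPC.SumPoly

/-!
# One linear form: the function is definable
-/

set_option autoImplicit false

namespace Pool.Agent.H63PR

open Finset Pool.Agent.Grz Pool.Agent.GAvg Pool.Agent.PTr Pool.Agent.LPC Pool.Agent.LinU

/-- The sequence `s` with `s_i = x_i` for `i < N` and `s_(i+N) = ∑ j < N, u_j s_(i+j)` modulo `m`;
here `x_i`, `u_j` are the digits of `x`, `u` to the base `m`. -/
def linSeq (m N u x i : ℕ) : ℕ :=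
  if i < N then dg m x i
  else (∑ j : Fin N, dg m u j * linSeq m N u x (i - N + j)) % m
termination_by i
decreasing_by
  have := j.2
  omega

theorem linSeq_lt {m N u x i : ℕ} (h : i < N) : linSeq m N u x i = dg m x i := by
  rw [linSeq, if_pos h]

theorem linSeq_add (m N u x i : ℕ) : linSeq m N u x (i + N) =
    (∑ j ∈ range N, dg m u j * linSeq m N u x (i + j)) % m := by
  rw [linSeq, if_neg (by omega), Nat.add_sub_cancel,
    Fin.sum_univ_eq_sum_range (fun j => dg m u j * linSeq m N u x (i + j))]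

/-- the digits of the next window -/
def wdg (m N u z i : ℕ) : ℕ :=
  if i + 1 < N then dg m z (i + 1) else (∑ j ∈ range N, dg m u j * dg m z j) % m

/-- the next window -/
def wmap (m N u z : ℕ) : ℕ := ∑ i ∈ range N, wdg m N u z i * m ^ i

/-- the first window -/
def wst (m N x : ℕ) : ℕ := ∑ i ∈ range N, dg m x i * m ^ i

section

variable {m N u x : ℕ}

theorem wdg_lt (hm : 0 < m) (z i : ℕ) : wdg m N u z i < m := by
  unfold wdg
  split_ifs
  · exact Nat.mod_lt _ hm
  · exact Nat.mod_lt _ hm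

theorem dg_wmap (hm : 0 < m) {z i : ℕ} (hi : i < N) : dg m (wmap m N u z) i = wdg m N u z i :=
  dg_code hm (wdg m N u z) (fun i _ => wdg_lt hm z i) hi

/-- the companion matrix -/
def cmat (m N u : ℕ) : Matrix (Fin N) (Fin N) (ZMod m) := fun i j =>
  if (i : ℕ) + 1 < N then (if (j : ℕ) = i + 1 then 1 else 0) else ((dg m u j : ℕ) : ZMod m)

theorem vec_wmap (hm : 0 < m) (z : ℕ) :
    vecOf m N (wmap m N u z) = (cmat m N u).mulVec (vecOf m N z) + 0 := by
  funext i
  have h1 : vecOf m N (wmap m N u z) i = ((wdg m N u z i : ℕ) : ZMod m) := by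
    unfold vecOf
    rw [dg_wmap hm i.2]
  have h2 : (cmat m N u).mulVec (vecOf m N z) i = ∑ j ∈ range N,
      (if (i : ℕ) + 1 < N then (if j = i + 1 then 1 else 0) else ((dg m u j : ℕ) : ZMod m)) *
        ((dg m z j : ℕ) : ZMod m) := by
    rw [← Fin.sum_univ_eq_sum_range]
    rfl
  rw [Pi.add_apply, Pi.zero_apply, add_zero, h1, h2]
  unfold wdg
  by_cases h3 : (i : ℕ) + 1 < N
  · simp only [if_pos h3]
    rw [sum_eq_single ((i : ℕ) + 1)]
    · rw [if_pos rfl, one_mul]
    · intro j _ hj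
      rw [if_neg hj, zero_mul]
    · intro h4
      exact absurd (mem_range.2 h3) h4
  · simp only [if_neg h3]
    rw [ZMod.natCast_mod, Nat.cast_sum]
    exact sum_congr rfl fun j _ => Nat.cast_mul _ _

theorem orb_wmap (hm : 0 < m) (t : ℕ) :
    ∀ i < N, dg m ((wmap m N u)^[t] (wst m N x)) i = linSeq m N u x (t + i) := by
  induction t with
  | zero =>
    intro i hi
    rw [Nat.zero_add, linSeq_lt hi]
    exact dg_code hm (dg m x) (fun i _ => Nat.mod_lt _ hm) hi
  | succ t ih =>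
    intro i hi
    rw [Function.iterate_succ_apply', dg_wmap hm hi]
    unfold wdg
    by_cases h : i + 1 < N
    · rw [if_pos h, ih _ h]
      congr 1
      omega
    · rw [if_neg h, show t + 1 + i = t + N by omega, linSeq_add]
      congr 1
      exact sum_congr rfl fun j hj => by rw [ih j (mem_range.1 hj)]

end

section

variable {n m : ℕ} {N B u x z i : (Fin n → ℕ) → ℕ}

theorem wdg_def (hm : 2 ≤ m) (hN : DFun n N) (hB : DFun n B) (hu : DFun n u) (hz : DFun n z)
    (hi : DFun n i) (hNB : ∀ v, m ^ N v ≤ B v) :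
    DFun n (fun v => wdg m (N v) (u v) (z v) (i v)) := by
  unfold wdg
  have hg : DFun (n + 1) (fun w => (fun (j : ℕ) (v : Fin n → ℕ) => dg m (u v) j * dg m (z v) j)
      (w 0) (fun i => w i.succ)) :=
    (dfun_dg (DFun.const m) hu.weak (DFun.proj 0) fun _ => hm).mul
      (dfun_dg (DFun.const m) hz.weak (DFun.proj 0) fun _ => hm)
  have h1 := dfun_sumPoly 1 (N := B)
    (g := fun (j : ℕ) (v : Fin n → ℕ) => dg m (u v) j * dg m (z v) j) hg hN hB (fun v => by
      rw [pow_one]
      exact (le_lg_of_pow_le hm (hNB v)).trans (Nat.le_succ _))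
  exact DFun.ite (Delta0.ltFun (hi.add (DFun.const 1)) hN)
    (dfun_dg (DFun.const m) hz (hi.add (DFun.const 1)) fun _ => hm)
    (DFun.modPos h1 (DFun.const m) fun _ => by omega)

theorem wmap_def (hm : 2 ≤ m) (hN : DFun n N) (hB : DFun n B) (hu : DFun n u) (hz : DFun n z)
    (hNB : ∀ v, m ^ N v ≤ B v) : DFun n (fun v => wmap m (N v) (u v) (z v)) := by
  refine dfun_code (m := fun _ => m) (d := N) (B := B)
    (g := fun i v => wdg m (N v) (u v) (z v) i) (DFun.const m) hN hB ?_ (fun _ => hm) hNB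
  exact wdg_def (B := fun w => B fun i => w i.succ) hm hN.weak hB.weak hu.weak hz.weak
    (DFun.proj 0) fun w => hNB _

theorem wst_def (hm : 2 ≤ m) (hN : DFun n N) (hB : DFun n B) (hx : DFun n x)
    (hNB : ∀ v, m ^ N v ≤ B v) : DFun n (fun v => wst m (N v) (x v)) :=
  dfun_code (m := fun _ => m) (d := N) (B := B)
    (g := fun i v => dg m (x v) i) (DFun.const m) hN hB
    (dfun_dg (DFun.const m) hx.weak (DFun.proj 0) fun _ => hm) (fun _ => hm) hNB

end

/-- **One linear form.** The function `(u, x, p, t) ↦ s_t` is in `DFun`; here `s` is the sequence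
with `s_i = x_i` for `i < N`, `N = ⌊log_m p⌋`, and `s_(i+N) = ∑ j < N, u_j s_(i+j)` modulo `m`. -/
theorem lin_def {m : ℕ} (hm : 2 ≤ m) :
    DFun 4 (fun v => linSeq m (Nat.log m (v 2)) (v 0) (v 1) (v 3)) := by
  have hm0 : 0 < m := by omega
  have hN : DFun 4 (fun v => Nat.log m (v 2)) := logm_def hm (DFun.proj 2)
  have hB : DFun 4 (fun v => v 2 + 1) := (DFun.proj 2).add (DFun.const 1)
  have hNB : ∀ v : Fin 4 → ℕ, m ^ Nat.log m (v 2) ≤ v 2 + 1 := fun v =>
    Nat.pow_log_le_add_one m (v 2)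
  have h1 := H69Fu.full_aff_pos (m := fun _ : Fin 4 → ℕ => m) (N := fun v => Nat.log m (v 2))
    (B := fun v => v 2 + 1) (x := fun v => wst m (Nat.log m (v 2)) (v 1)) (t := fun v => v 3)
    (T := fun z v => wmap m (Nat.log m (v 2)) (v 0) z) (DFun.const m) hN hB
    (wst_def hm hN hB (DFun.proj 1) hNB) (DFun.proj 3)
    (wmap_def (B := fun w => w 3 + 1) hm hN.weak hB.weak (DFun.proj 1) (DFun.proj 0)
      fun w => hNB fun i => w i.succ) (fun _ => hm0) hNB
    (fun v z _ => lt_code hm0 _ fun i _ => wdg_lt hm0 z i)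
    (fun v => ⟨_, 0, fun z _ => vec_wmap hm0 z⟩)
    (fun v => lt_code hm0 _ fun i _ => Nat.mod_lt _ hm0)
  have h2 := DFun.ite (Delta0.eqFun hN (DFun.const 0)) (DFun.const 0)
    (dfun_dg (DFun.const m) h1 (DFun.const 0) fun _ => hm)
  refine (show (fun v : Fin 4 → ℕ => linSeq m (Nat.log m (v 2)) (v 0) (v 1) (v 3)) = _ from ?_) ▸ h2
  funext v
  by_cases h : Nat.log m (v 2) = 0
  · rw [if_pos h, h]
    have h3 := linSeq_add m 0 (v 0) (v 1) (v 3)
    rw [Nat.add_zero, range_zero, sum_empty, Nat.zero_mod] at h3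
    exact h3
  · rw [if_neg h]
    exact (orb_wmap hm0 (v 3) 0 (Nat.pos_of_ne_zero h)).symm

end Pool.Agent.H63PR
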