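import Pool.Agent.H63PR.Def

/-!
# Products of two linear forms: the recurrence of the whole sequence
-/

set_option autoImplicit false

namespace Pool.Agent.H63PR

open Finset Pool.Agent.Grz Pool.Agent.LinU Pool.Agent.H63OA

section

variable {m k N : ℕ} {a b c s : ℕ → ℕ}

/-- the second factor at the places of the gates -/
theorem sumB_at (hN : 1 ≤ N) (hb : ∀ j < k, b j < N) {τ x : ℕ}
    (hτ : N * bl k ≤ τ) (hx : x < gn k) (hτx : τ % bl k = 4 ^ x) :
    sumB k N b (pseq k (cell m k N a b s)) τ =
      if 2 ≤ x ∧ x < k + 2 then s (τ / bl k + 1 - N + b (x - 2)) else 1 := by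
  have hn : N ≤ τ / bl k := (Nat.le_div_iff_mul_le (bl_pos k)).2 hτ
  unfold sumB
  have h1 : ∀ e ∈ range (k + 6), pseq k (cell m k N a b s)
      (τ - del k (tgB k e) (srB k e) (shB k N b e)) =
      if x = tgB k e then cell m k N a b s (srB k e) (τ / bl k - shB k N b e) else 0 :=
    fun e he => tap_at hN (okB hN hb (mem_range.1 he)) hτ hx hτx
  rw [sum_congr rfl h1]
  have hx' : x < k + 6 := hx
  obtain ⟨e₀, he₀, h2, h3⟩ : ∃ e₀ < k + 6, tgB k e₀ = x ∧ ∀ e < k + 6, tgB k e = x → e = e₀ := by
    by_cases h4 : x < 2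
    · refine ⟨k + x, by omega, ?_, ?_⟩
      · unfold tgB
        rw [if_neg (by omega), if_pos (by omega)]
        omega
      · intro e he h5
        unfold tgB at h5
        split_ifs at h5 <;> omega
    · by_cases h5 : x < k + 2
      · refine ⟨x - 2, by omega, ?_, ?_⟩
        · unfold tgB
          rw [if_pos (by omega)]
          omega
        · intro e he h6
          unfold tgB at h6
          split_ifs at h6 <;> omega
      · refine ⟨x, by omega, ?_, ?_⟩
        · unfold tgB
          rw [if_neg (by omega), if_neg (by omega)]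
        · intro e he h6
          unfold tgB at h6
          split_ifs at h6 <;> omega
  rw [sum_eq_single_of_mem e₀ (mem_range.2 he₀)]
  · rw [if_pos h2.symm]
    unfold tgB at h2
    unfold srB shB cell
    by_cases h4 : e₀ < k
    · rw [if_pos h4] at h2
      rw [if_pos h4, if_pos h4, if_pos (by norm_num : 1 < 2), if_pos (by omega)]
      have := hb e₀ h4
      congr 1
      have h5 : x - 2 = e₀ := by omega
      rw [h5]
      omega
    · rw [if_neg h4, if_neg h4]
      rw [if_neg h4] at h2
      have h6 : ¬ (2 ≤ x ∧ x < k + 2) := by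
        split_ifs at h2 <;> omega
      rw [if_neg h6]
      have h7 : ∀ y, (y = k + 5 ∨ y = k + 4) → ∀ n, (if y < 2 then s n else
          if y < k + 2 then (if N ≤ n + 1 then s (n + 1 - N + a (y - 2)) *
            s (n + 1 - N + b (y - 2)) % m else 0) else 1) = 1 := by
        intro y hy n
        rw [if_neg (by omega), if_neg (by omega)]
      by_cases h8 : e₀ = k + 4
      · rw [if_pos h8]
        exact h7 _ (Or.inl rfl) _
      · rw [if_neg h8]
        exact h7 _ (Or.inr rfl) _
  · intro e he h4
    rw [if_neg]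
    intro h5
    exact h4 (h3 e (mem_range.1 he) h5.symm)

/-- the first factor at the places of the gates -/
theorem sumA_at (hm : 2 ≤ m) (hN : 1 ≤ N) (ha : ∀ j < k, a j < N) (hs2 : ∀ i, s i < m)
    (hs : ∀ i, s (i + N) = (∑ j ∈ range k, c j * s (i + a j) * s (i + b j)) % m) {τ x : ℕ}
    (hτ : N * bl k ≤ τ) (hx : x < gn k) (hτx : τ % bl k = 4 ^ x) :
    sumA k N a c (pseq k (cell m k N a b s)) τ % m =
      if x < 2 then s (τ / bl k) else
        if x < k + 2 then s (τ / bl k + 1 - N + a (x - 2)) else 1 := by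
  have hn : N ≤ τ / bl k := (Nat.le_div_iff_mul_le (bl_pos k)).2 hτ
  have hx' : x < k + 6 := hx
  unfold sumA
  have h1 : ∀ e ∈ range (3 * k + 4), wtA k c e * pseq k (cell m k N a b s)
      (τ - del k (tgA k e) (srA k e) (shA k N a e)) =
      wtA k c e * if x = tgA k e then cell m k N a b s (srA k e) (τ / bl k - shA k N a e) else 0 :=
    fun e he => by rw [tap_at hN (okA hN ha (mem_range.1 he)) hτ hx hτx]
  rw [sum_congr rfl h1, sum_range_succ, sum_range_succ, sum_range_succ, sum_range_succ, sum_three]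
  have e0 : ∀ j ∈ range k, wtA k c (3 * j) * (if x = tgA k (3 * j) then
      cell m k N a b s (srA k (3 * j)) (τ / bl k - shA k N a (3 * j)) else 0) =
      if x = 2 + j then s (τ / bl k - (N - 1 - a j)) else 0 := by
    intro j hj
    rw [mem_range] at hj
    unfold wtA tgA srA shA cell
    rw [if_pos (by omega : 3 * j < 3 * k), if_pos (by omega : 3 * j < 3 * k),
      if_pos (by omega : 3 * j < 3 * k), if_pos (by omega : 3 * j < 3 * k),
      if_pos (by omega : 3 * j % 3 = 0), if_pos (by omega : 3 * j % 3 = 0),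
      if_pos (by omega : 3 * j % 3 = 0), if_pos (by omega : 3 * j % 3 = 0), one_mul,
      if_pos (by norm_num : (0 : ℕ) < 2), Nat.mul_div_cancel_left _ (by norm_num : 0 < 3)]
  have e1 : ∀ j ∈ range k, wtA k c (3 * j + 1) * (if x = tgA k (3 * j + 1) then
      cell m k N a b s (srA k (3 * j + 1)) (τ / bl k - shA k N a (3 * j + 1)) else 0) =
      if x = 0 then c j * (s (τ / bl k - N + a j) * s (τ / bl k - N + b j) % m) else 0 := by
    intro j hj
    rw [mem_range] at hj
    unfold wtA tgA srA shA cell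
    rw [if_pos (by omega : 3 * j + 1 < 3 * k), if_pos (by omega : 3 * j + 1 < 3 * k),
      if_pos (by omega : 3 * j + 1 < 3 * k), if_pos (by omega : 3 * j + 1 < 3 * k),
      if_neg (by omega : ¬ (3 * j + 1) % 3 = 0), if_neg (by omega : ¬ (3 * j + 1) % 3 = 0),
      if_neg (by omega : ¬ (3 * j + 1) % 3 = 0), if_neg (by omega : ¬ (3 * j + 1) % 3 = 0),
      show (3 * j + 1) / 3 = j by omega, show (3 * j + 1) % 3 - 1 = 0 by omega,
      if_neg (by omega : ¬ 2 + j < 2), if_pos (by omega : 2 + j < k + 2),
      if_pos (by omega : N ≤ τ / bl k - 1 + 1), show τ / bl k - 1 + 1 - N = τ / bl k - N by omega,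
      show 2 + j - 2 = j by omega]
    split_ifs
    · rfl
    · rfl
  have e2 : ∀ j ∈ range k, wtA k c (3 * j + 2) * (if x = tgA k (3 * j + 2) then
      cell m k N a b s (srA k (3 * j + 2)) (τ / bl k - shA k N a (3 * j + 2)) else 0) =
      if x = 1 then c j * (s (τ / bl k - N + a j) * s (τ / bl k - N + b j) % m) else 0 := by
    intro j hj
    rw [mem_range] at hj
    unfold wtA tgA srA shA cell
    rw [if_pos (by omega : 3 * j + 2 < 3 * k), if_pos (by omega : 3 * j + 2 < 3 * k),
      if_pos (by omega : 3 * j + 2 < 3 * k), if_pos (by omega : 3 * j + 2 < 3 * k),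
      if_neg (by omega : ¬ (3 * j + 2) % 3 = 0), if_neg (by omega : ¬ (3 * j + 2) % 3 = 0),
      if_neg (by omega : ¬ (3 * j + 2) % 3 = 0), if_neg (by omega : ¬ (3 * j + 2) % 3 = 0),
      show (3 * j + 2) / 3 = j by omega, show (3 * j + 2) % 3 - 1 = 1 by omega,
      if_neg (by omega : ¬ 2 + j < 2), if_pos (by omega : 2 + j < k + 2),
      if_pos (by omega : N ≤ τ / bl k - 1 + 1), show τ / bl k - 1 + 1 - N = τ / bl k - N by omega,
      show 2 + j - 2 = j by omega]
    split_ifs
    · rfl
    · rfl
  have e3 : ∀ i < 4, wtA k c (3 * k + i) * (if x = tgA k (3 * k + i) then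
      cell m k N a b s (srA k (3 * k + i)) (τ / bl k - shA k N a (3 * k + i)) else 0) =
      if x = k + 2 + i then 1 else 0 := by
    intro i hi
    have hne : ¬ 3 * k + i < 3 * k := by omega
    have hc : ∀ y, (y = k + 3 ∨ y = k + 2) → ∀ n, (if y < 2 then s n else
        if y < k + 2 then (if N ≤ n + 1 then s (n + 1 - N + a (y - 2)) *
          s (n + 1 - N + b (y - 2)) % m else 0) else 1) = 1 := by
      intro y hy n
      rw [if_neg (by omega), if_neg (by omega)]
    unfold wtA tgA srA shA cell
    rw [if_neg hne, if_neg hne, if_neg hne, if_neg hne, one_mul,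
      show k + 2 + (3 * k + i - 3 * k) = k + 2 + i by omega]
    by_cases h4 : 3 * k + i = 3 * k
    · rw [if_pos h4, hc _ (Or.inl rfl)]
    · rw [if_neg h4, hc _ (Or.inr rfl)]
  have h1m : 1 % m = 1 := Nat.mod_eq_of_lt (by omega)
  have f0 := e3 0 (by norm_num)
  have f1 := e3 1 (by norm_num)
  have f2 := e3 2 (by norm_num)
  have f3 := e3 3 (by norm_num)
  rw [add_zero, add_zero] at f0
  rw [f0, f1, f2, f3, sum_add_distrib, sum_add_distrib, sum_congr rfl e0, sum_congr rfl e1,
    sum_congr rfl e2]
  have hsn : s (τ / bl k) = (∑ j ∈ range k, c j * (s (τ / bl k - N + a j) *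
      s (τ / bl k - N + b j) % m)) % m := by
    have h5 := hs (τ / bl k - N)
    rw [Nat.sub_add_cancel hn] at h5
    rw [h5, sum_nat_mod, sum_nat_mod (range k) m (fun j => c j * (s (τ / bl k - N + a j) *
      s (τ / bl k - N + b j) % m))]
    congr 1
    exact sum_congr rfl fun j _ => by rw [Nat.mul_mod_mod, mul_assoc]
  by_cases hx0 : x = 0
  · subst hx0
    rw [if_pos (by norm_num : 0 < 2), hsn]
    simp only [if_true, if_neg (by omega : ¬ (0 : ℕ) = 1), if_neg (by omega : ¬ 0 = k + 2),
      if_neg (by omega : ¬ 0 = k + 2 + 1), if_neg (by omega : ¬ 0 = k + 2 + 2),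
      if_neg (by omega : ¬ 0 = k + 2 + 3), sum_const_zero, add_zero]
    rw [sum_eq_zero (f := fun j => if 0 = 2 + j then s (τ / bl k - (N - 1 - a j)) else 0)
      (fun j _ => if_neg (by omega)), zero_add]
  · by_cases hx1 : x = 1
    · subst hx1
      rw [if_pos (by norm_num : 1 < 2), hsn]
      simp only [if_true, if_neg (by omega : ¬ (1 : ℕ) = 0), if_neg (by omega : ¬ 1 = k + 2),
        if_neg (by omega : ¬ 1 = k + 2 + 1), if_neg (by omega : ¬ 1 = k + 2 + 2),
        if_neg (by omega : ¬ 1 = k + 2 + 3), sum_const_zero, add_zero]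
      rw [sum_eq_zero (f := fun j => if 1 = 2 + j then s (τ / bl k - (N - 1 - a j)) else 0)
        (fun j _ => if_neg (by omega)), zero_add]
    · rw [if_neg (by omega : ¬ x < 2)]
      simp only [if_neg hx0, if_neg hx1, sum_const_zero, add_zero]
      by_cases hxk : x < k + 2
      · rw [if_pos hxk, if_neg (by omega : ¬ x = k + 2), if_neg (by omega : ¬ x = k + 2 + 1),
          if_neg (by omega : ¬ x = k + 2 + 2), if_neg (by omega : ¬ x = k + 2 + 3)]
        rw [sum_eq_single_of_mem (x - 2) (mem_range.2 (by omega))]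
        · rw [if_pos (by omega : x = 2 + (x - 2))]
          simp only [add_zero]
          rw [Nat.mod_eq_of_lt (hs2 _)]
          congr 1
          have := ha (x - 2) (by omega)
          omega
        · intro j _ hj
          rw [if_neg (by omega)]
      · rw [if_neg hxk]
        rw [sum_eq_zero (f := fun j => if x = 2 + j then s (τ / bl k - (N - 1 - a j)) else 0)
          (fun j hj => if_neg (by rw [mem_range] at hj; omega)), zero_add]
        obtain h4 | h4 | h4 | h4 : x = k + 2 ∨ x = k + 2 + 1 ∨ x = k + 2 + 2 ∨ x = k + 2 + 3 := by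
          omega
        · rw [if_pos h4, if_neg (by omega : ¬ x = k + 2 + 1), if_neg (by omega : ¬ x = k + 2 + 2),
            if_neg (by omega : ¬ x = k + 2 + 3)]
          all_goals simp only [zero_add, add_zero, h1m]
        · rw [if_neg (by omega : ¬ x = k + 2), if_pos h4, if_neg (by omega : ¬ x = k + 2 + 2),
            if_neg (by omega : ¬ x = k + 2 + 3)]
          all_goals simp only [zero_add, add_zero, h1m]
        · rw [if_neg (by omega : ¬ x = k + 2), if_neg (by omega : ¬ x = k + 2 + 1), if_pos h4,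
            if_neg (by omega : ¬ x = k + 2 + 3)]
          all_goals simp only [zero_add, add_zero, h1m]
        · rw [if_neg (by omega : ¬ x = k + 2), if_neg (by omega : ¬ x = k + 2 + 1),
            if_neg (by omega : ¬ x = k + 2 + 2), if_pos h4]
          all_goals simp only [zero_add, add_zero, h1m]

/-- **The recurrence with one product.** -/
theorem pseq_rec (hm : 2 ≤ m) (hN : 1 ≤ N) (ha : ∀ j < k, a j < N) (hb : ∀ j < k, b j < N)
    (hs2 : ∀ i, s i < m)
    (hs : ∀ i, s (i + N) = (∑ j ∈ range k, c j * s (i + a j) * s (i + b j)) % m) {τ : ℕ}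
    (hτ : N * bl k ≤ τ) :
    pseq k (cell m k N a b s) τ = sumA k N a c (pseq k (cell m k N a b s)) τ *
      sumB k N b (pseq k (cell m k N a b s)) τ % m := by
  have hn : N ≤ τ / bl k := (Nat.le_div_iff_mul_le (bl_pos k)).2 hτ
  by_cases hx : ∃ x < gn k, τ % bl k = 4 ^ x
  · obtain ⟨x, hx, hτx⟩ := hx
    rw [← Nat.mod_mul_mod, pseq_at hx hτx, sumA_at hm hN ha hs2 hs hτ hx hτx,
      sumB_at hN hb hτ hx hτx]
    unfold cell
    by_cases h1 : x < 2
    · rw [if_pos h1, if_pos h1, if_neg (by omega), mul_one, Nat.mod_eq_of_lt (hs2 _)]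
    · rw [if_neg h1, if_neg h1]
      by_cases h2 : x < k + 2
      · rw [if_pos h2, if_pos h2, if_pos (by omega), if_pos (by omega)]
      · rw [if_neg h2, if_neg h2, if_neg (by omega), mul_one, Nat.mod_eq_of_lt (by omega)]
  · have hno : ∀ x < gn k, τ % bl k ≠ 4 ^ x := fun x hxk hxe => hx ⟨x, hxk, hxe⟩
    have h0 : pseq k (cell m k N a b s) τ = 0 := by
      by_contra hne
      obtain ⟨l, hl, h1⟩ := pseq_ne hne
      exact hno l hl h1
    have h3 : sumA k N a c (pseq k (cell m k N a b s)) τ *
        sumB k N b (pseq k (cell m k N a b s)) τ = 0 := by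
      by_contra hne
      obtain ⟨hA, hB⟩ := Nat.mul_ne_zero_iff.1 hne
      obtain ⟨e, he, h1⟩ := exists_ne_zero_of_sum_ne_zero hA
      obtain ⟨e', he', h2⟩ := exists_ne_zero_of_sum_ne_zero hB
      rw [mem_range] at he he'
      exact tap_two hN (okA hN ha he) (okB hN hb he') (src_ne he he') hτ hno
        (fun h => h1 (by rw [h, mul_zero])) h2
    rw [h0, h3, Nat.zero_mod]

end

end Pool.Agent.H63PR
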